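import Pool.Agent.helper66.SL.SpecA

set_option autoImplicit false

namespace Pool.Agent.helper66.SL

open Pool.Agent.helper52.FC

theorem TRU_proof (hXJW : XJW) : TRU := by
  intro E _ L F hG hCD S hS e he x y x' y' hc hc' hx g hg
  by_cases hge : g = e
  · subst hge
    rw [← hc.1, ← hc'.1]
    exact hx g he
  · have hW : Wall L (fl S e) e := by
      unfold Wall
      rw [fl_fl]
      exact hS
    obtain ⟨Z, hZc, hZle, hZw⟩ := hXJW E L hG (fl S e) he {e, g} (by
      intro h hh
      rcases hh with rfl | hh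
      · exact hW
      · rw [Set.mem_singleton_iff] at hh
        subst hh
        exact hg)
    rw [Set.ncard_pair (Ne.symm hge)] at hZc
    have hZe : Z e = 0 := (hZw e hW).2 (Or.inl rfl)
    have hZg : Z g = 0 := (hZw g hg).2 (Or.inr rfl)
    have hZS : Le Z S := by
      intro h
      by_cases hh : h = e
      · subst hh
        exact Or.inl hZe
      · have := hZle h
        rwa [fl_ne S hh] at this
    obtain ⟨f, hf, hf1, hf2⟩ := hc.2 Z hZc hZS hZe
    obtain ⟨f', hf', hf1', hf2'⟩ := hc'.2 Z hZc hZS hZe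
    obtain ⟨i, j, hij, hset⟩ := Set.ncard_eq_two.1 (hZc.2 S hS hZS)
    have hi : Wall L S i ∧ Z i = 0 := by
      have : i ∈ {e | Wall L S e ∧ Z e = 0} := by rw [hset]; exact Or.inl rfl
      exact this
    have hj : Wall L S j ∧ Z j = 0 := by
      have : j ∈ {e | Wall L S e ∧ Z e = 0} := by rw [hset]; exact Or.inr rfl
      exact this
    have h0 := hCD.uniq Z hZc S hS hZS i j hij hi.1 hj.1 hi.2 hj.2 (f - f') (Submodule.sub_mem _ hf hf')
      (by rw [Pi.sub_apply, ← hf1 i hi.1 hi.2, ← hf1' i hi.1 hi.2, hx i hi.1, sub_self])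
      (by rw [Pi.sub_apply, ← hf1 j hj.1 hj.2, ← hf1' j hj.1 hj.2, hx j hj.1, sub_self]) g hZg
    rw [Pi.sub_apply, sub_eq_zero] at h0
    rw [hf2 g hg hZg, hf2' g hg hZg, h0]

end Pool.Agent.helper66.SL
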